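import Pool.Agent.EDW.Disk

/-!
# Points of a parabola: the lower bound
-/

set_option autoImplicit false

open Finset

namespace Pool.Agent.CvxP

open Pool.Agent.EDW (Plane IsLine)

/-- three points of the parabola near a line -/
theorem three {w0 w1 b x0 x1 x2 ρ : ℝ} (hw : w0 ^ 2 + w1 ^ 2 = 1) (h0 : 0 ≤ x0) (h01 : x0 < x1) (h12 : x1 < x2)
    (h2 : x2 ≤ 1 / 2) (hf0 : |w0 * x0 + w1 * x0 ^ 2 - b| ≤ ρ) (hf1 : |w0 * x1 + w1 * x1 ^ 2 - b| ≤ ρ)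
    (hf2 : |w0 * x2 + w1 * x2 ^ 2 - b| ≤ ρ) : (x1 - x0) * (x2 - x1) ≤ 4 * ρ := by
  have hρ : 0 ≤ ρ := (abs_nonneg _).trans hf0
  obtain ⟨a0, b0⟩ := abs_le.1 hf0
  obtain ⟨a1, b1⟩ := abs_le.1 hf1
  obtain ⟨a2, b2⟩ := abs_le.1 hf2
  set f0 := w0 * x0 + w1 * x0 ^ 2 - b with e0
  set f1 := w0 * x1 + w1 * x1 ^ 2 - b with e1
  set f2 := w0 * x2 + w1 * x2 ^ 2 - b with e2
  have d1 : 0 < x1 - x0 := by linarith
  have d2 : 0 < x2 - x1 := by linarith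
  have d3 : 0 < x2 - x0 := by linarith
  -- second difference
  have key : w1 * ((x1 - x0) * (x2 - x1) * (x2 - x0)) = f0 * (x2 - x1) - f1 * (x2 - x0) + f2 * (x1 - x0) := by
    rw [e0, e1, e2]
    ring
  have habs : |w1| * ((x1 - x0) * (x2 - x1)) ≤ 2 * ρ := by
    have h1 : |w1| * ((x1 - x0) * (x2 - x1)) * (x2 - x0) = |f0 * (x2 - x1) - f1 * (x2 - x0) + f2 * (x1 - x0)| := by
      rw [← key, abs_mul, abs_of_pos (show 0 < (x1 - x0) * (x2 - x1) * (x2 - x0) by positivity)]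
      ring
    have h3 : |f0 * (x2 - x1) - f1 * (x2 - x0) + f2 * (x1 - x0)| ≤ 2 * ρ * (x2 - x0) := by
      rw [abs_le]
      constructor <;> nlinarith
    rw [← h1] at h3
    exact le_of_mul_le_mul_right h3 d3
  rcases le_or_gt (1 / 2) |w1| with hc | hc
  · nlinarith [mul_pos d1 d2]
  · -- nearly vertical lines
    have hw1 : w1 ^ 2 < 1 / 4 := by
      have : |w1| ^ 2 < (1 / 2) ^ 2 := by
        have := abs_nonneg w1
        nlinarith
      rw [sq_abs] at this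
      linarith
    have hw0 : 3 / 4 < |w0| := by
      have h1 : 3 / 4 < w0 ^ 2 := by linarith
      rw [← sq_abs] at h1
      have h3 := abs_nonneg w0
      nlinarith
    have h1 : f2 - f0 = (x2 - x0) * (w0 + w1 * (x2 + x0)) := by
      rw [e0, e2]
      ring
    have h3 : 1 / 4 ≤ |w0 + w1 * (x2 + x0)| := by
      have h4 : |w1 * (x2 + x0)| ≤ 1 / 2 := by
        rw [abs_mul, abs_of_nonneg (show 0 ≤ x2 + x0 by linarith)]
        have := abs_nonneg w1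
        nlinarith
      have h5 : |w0| ≤ |w0 + w1 * (x2 + x0)| + |w1 * (x2 + x0)| := by
        have := abs_sub (w0 + w1 * (x2 + x0)) (w1 * (x2 + x0))
        simpa using this
      linarith
    have h4 : (x2 - x0) * (1 / 4) ≤ 2 * ρ := by
      have h5 : |f2 - f0| ≤ 2 * ρ := by
        rw [abs_le]
        constructor <;> linarith
      rw [h1, abs_mul, abs_of_pos d3] at h5
      nlinarith
    nlinarith [mul_pos d1 d2]

/-- the `i`-th centre `(i / (2n), (i / (2n))²)` -/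
noncomputable def pt (n : ℕ) (i : Fin n) : Plane :=
  WithLp.toLp 2 ![((i : ℕ) : ℝ) / (2 * n), (((i : ℕ) : ℝ) / (2 * n)) ^ 2]

theorem pt_zero (n : ℕ) (i : Fin n) : pt n i 0 = ((i : ℕ) : ℝ) / (2 * n) := by simp [pt]

theorem pt_one (n : ℕ) (i : Fin n) : pt n i 1 = (((i : ℕ) : ℝ) / (2 * n)) ^ 2 := by simp [pt]

theorem x_nonneg (n : ℕ) (i : Fin n) : 0 ≤ ((i : ℕ) : ℝ) / (2 * n) := by positivity

theorem x_le (n : ℕ) (i : Fin n) : ((i : ℕ) : ℝ) / (2 * n) ≤ 1 / 2 := by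
  have hn : 0 < n := lt_of_le_of_lt (Nat.zero_le _) i.isLt
  have hn0 : (0 : ℝ) < n := by exact_mod_cast hn
  have h1 : ((i : ℕ) : ℝ) ≤ n := by exact_mod_cast i.isLt.le
  rw [div_le_div_iff₀ (by positivity) (by norm_num)]
  linarith

theorem norm_pt (n : ℕ) (i : Fin n) : ‖pt n i‖ ≤ 3 / 5 := by
  apply le_of_sq_le_sq _ (by norm_num)
  rw [Pool.Agent.EDW.plane_normsq, pt_zero, pt_one]
  have h1 := x_nonneg n i
  have h2 := x_le n i
  set x := ((i : ℕ) : ℝ) / (2 * n)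
  have h3 : x ^ 2 ≤ 1 / 4 := by nlinarith
  have h4 : 0 ≤ x ^ 2 := sq_nonneg x
  nlinarith

/-- the disks of radius `k² / (100 n²)` around the points: every line meets at most `k` -/
theorem few {n k : ℕ} (hk : 2 ≤ k) (hkn : k ≤ n) (l : Set Plane) (hl : IsLine l) :
    {i | (Metric.closedBall (pt n i) ((k : ℝ) ^ 2 / (100 * (n : ℝ) ^ 2)) ∩ l).Nonempty}.ncard ≤ k := by
  classical
  obtain ⟨a, v, hv, rfl⟩ := hl
  set ρ := (k : ℝ) ^ 2 / (100 * (n : ℝ) ^ 2) with hρ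
  have hn0 : (0 : ℝ) < n := by exact_mod_cast (by omega : 0 < n)
  have hk0 : (0 : ℝ) < k := by exact_mod_cast (by omega : 0 < k)
  have hρ0 : 0 < ρ := by positivity
  by_contra hcon
  push Not at hcon
  set F : Finset (Fin n) := univ.filter fun i =>
    (Metric.closedBall (pt n i) ρ ∩ {x | ∃ t : ℝ, x = a + t • v}).Nonempty with hF
  have hFc : k < F.card := by
    rw [← Set.ncard_coe_finset]
    refine lt_of_lt_of_eq hcon ?_
    congr 1
    ext i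
    simp [hF]
  -- the index set is sorted
  obtain ⟨G, hGF, hGc⟩ := exists_subset_card_eq (show k + 1 ≤ F.card by omega)
  let e := G.orderEmbOfFin hGc
  have hmem : ∀ j, e j ∈ F := fun j => hGF (G.orderEmbOfFin_mem hGc j)
  have hgap : ∀ (i j : Fin (k + 1)), i ≤ j → ((j : ℕ) : ℤ) - (i : ℕ) ≤ ((e j : ℕ) : ℤ) - (e i : ℕ) := by
    intro i j hij
    obtain ⟨i, hi⟩ := i
    obtain ⟨j, hj⟩ := j
    have hij' : i ≤ j := hij
    induction j, hij' using Nat.le_induction with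
    | base => simp
    | succ j hj' ih =>
      have h1 := ih (by omega) hj'
      have h2 : e ⟨j, by omega⟩ < e ⟨j + 1, hj⟩ := e.strictMono (Fin.mk_lt_mk.2 (Nat.lt_succ_self j))
      have h3 : ((e ⟨j, by omega⟩ : ℕ)) < ((e ⟨j + 1, hj⟩ : ℕ)) := h2
      simp only at h1 ⊢
      omega
  set m := k / 2 with hm
  let i0 : Fin (k + 1) := ⟨0, by omega⟩
  let i1 : Fin (k + 1) := ⟨m, by omega⟩
  let i2 : Fin (k + 1) := ⟨k, by omega⟩
  have g1 := hgap i0 i1 (Fin.mk_le_mk.2 (by omega))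
  have g2 := hgap i1 i2 (Fin.mk_le_mk.2 (by omega))
  have hnv : 0 < ‖v‖ := norm_pos_iff.2 hv
  have hnv2 := Pool.Agent.EDW.plane_normsq v
  have near : ∀ j, |(-v 1 / ‖v‖) * (pt n (e j) 0) + (v 0 / ‖v‖) * (pt n (e j) 0) ^ 2 -
      (-v 1 * a 0 + v 0 * a 1) / ‖v‖| ≤ ρ := by
    intro j
    obtain ⟨z, hz1, t, rfl⟩ := (mem_filter.1 (hmem j)).2
    have h1 := Pool.Agent.EDW.disk_near (Metric.mem_closedBall.1 hz1)
    have h2 : (-v 1 / ‖v‖) * (pt n (e j) 0) + (v 0 / ‖v‖) * (pt n (e j) 0) ^ 2 -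
      (-v 1 * a 0 + v 0 * a 1) / ‖v‖ = (-v 1 * (pt n (e j) 0 - a 0) + v 0 * (pt n (e j) 1 - a 1)) / ‖v‖ := by
      rw [pt_one, ← pt_zero]
      field_simp
      ring
    rw [h2, abs_div, abs_of_pos hnv, div_le_iff₀ hnv]
    exact h1
  have hw : (-v 1 / ‖v‖) ^ 2 + (v 0 / ‖v‖) ^ 2 = 1 := by
    rw [div_pow, div_pow, ← add_div, div_eq_one_iff_eq (by positivity), hnv2]
    ring
  have hxx : ∀ j, pt n (e j) 0 = ((e j : ℕ) : ℝ) / (2 * n) := fun j => pt_zero n (e j)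
  have d1 : (m : ℝ) / (2 * n) ≤ pt n (e i1) 0 - pt n (e i0) 0 := by
    rw [hxx, hxx, ← sub_div]
    apply div_le_div_of_nonneg_right _ (by positivity)
    have h1 : ((m : ℕ) : ℤ) - ((0 : ℕ) : ℤ) ≤ ((e i1 : ℕ) : ℤ) - (e i0 : ℕ) := g1
    have h2 : m + (e i0 : ℕ) ≤ (e i1 : ℕ) := by omega
    have h3 : (m : ℝ) + ((e i0 : ℕ) : ℝ) ≤ ((e i1 : ℕ) : ℝ) := by exact_mod_cast h2
    linarith
  have d2 : ((k - m : ℕ) : ℝ) / (2 * n) ≤ pt n (e i2) 0 - pt n (e i1) 0 := by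
    rw [hxx, hxx, ← sub_div]
    apply div_le_div_of_nonneg_right _ (by positivity)
    have h1 : ((k : ℕ) : ℤ) - ((m : ℕ) : ℤ) ≤ ((e i2 : ℕ) : ℤ) - (e i1 : ℕ) := g2
    have h2 : (k - m) + (e i1 : ℕ) ≤ (e i2 : ℕ) := by omega
    have h3 : ((k - m : ℕ) : ℝ) + ((e i1 : ℕ) : ℝ) ≤ ((e i2 : ℕ) : ℝ) := by exact_mod_cast h2
    linarith
  have hm1 : 1 ≤ m := by omega
  have hkm : 1 ≤ k - m := by omega
  have hm0 : (0 : ℝ) < m := by exact_mod_cast hm1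
  have hkm0 : (0 : ℝ) < ((k - m : ℕ) : ℝ) := by exact_mod_cast hkm
  have p1 : 0 < (m : ℝ) / (2 * n) := by positivity
  have p2 : 0 < ((k - m : ℕ) : ℝ) / (2 * n) := by positivity
  have h3 := three hw (by rw [hxx]; positivity) (by linarith : pt n (e i0) 0 < pt n (e i1) 0)
    (by linarith : pt n (e i1) 0 < pt n (e i2) 0) (by rw [hxx]; exact x_le n (e i2)) (near i0) (near i1) (near i2)
  have h4 : (m : ℝ) / (2 * n) * (((k - m : ℕ) : ℝ) / (2 * n)) ≤ 4 * ρ :=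
    (mul_le_mul d1 d2 p2.le (by linarith)).trans h3
  have h5 : 2 * k ^ 2 ≤ 9 * (m * (k - m)) := by
    rcases Nat.even_or_odd' k with ⟨q, hq | hq⟩
    · have e1 : m = q := by omega
      have e2 : k - m = q := by omega
      rw [e2, e1, hq]
      nlinarith
    · have e1 : m = q := by omega
      have e2 : k - m = q + 1 := by omega
      have e3 : 1 ≤ q := by omega
      rw [e2, e1, hq]
      nlinarith
  have h6 : 2 * (k : ℝ) ^ 2 ≤ 9 * ((m : ℝ) * ((k - m : ℕ) : ℝ)) := by exact_mod_cast h5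
  have h7 : (m : ℝ) / (2 * n) * (((k - m : ℕ) : ℝ) / (2 * n)) = ((m : ℝ) * ((k - m : ℕ) : ℝ)) / (4 * (n : ℝ) ^ 2) := by
    rw [div_mul_div_comm]
    congr 1
    ring
  rw [h7, hρ, div_le_iff₀ (by positivity)] at h4
  have h8 : 4 * ((k : ℝ) ^ 2 / (100 * (n : ℝ) ^ 2)) * (4 * (n : ℝ) ^ 2) = 16 / 100 * (k : ℝ) ^ 2 := by
    have hn1 : (n : ℝ) ^ 2 ≠ 0 := by positivity
    have h9 : (k : ℝ) ^ 2 / (100 * (n : ℝ) ^ 2) * (n : ℝ) ^ 2 = (k : ℝ) ^ 2 / 100 := by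
      rw [mul_comm (100 : ℝ), ← div_div, div_mul_eq_mul_div, div_mul_cancel₀ _ hn1]
    calc 4 * ((k : ℝ) ^ 2 / (100 * (n : ℝ) ^ 2)) * (4 * (n : ℝ) ^ 2) =
        16 * ((k : ℝ) ^ 2 / (100 * (n : ℝ) ^ 2) * (n : ℝ) ^ 2) := by ring
      _ = 16 / 100 * (k : ℝ) ^ 2 := by rw [h9]; ring
  rw [h8] at h4
  nlinarith [sq_nonneg (k : ℝ), mul_pos hk0 hk0]

end Pool.Agent.CvxP
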