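import Pool.Agent.EDU.Disk
import Pool.Agent.EDW.Disk

/-!
# Disks with centres on supporting lines: the upper bound

Among `N` centres with supporting normals `(s, 1)`, `|s| ≤ 1`, the numbers `x` and `s` are comonotone, so `x + s ∈ [-2, 2]` and the
box principle gives `k + 1` centres in a strip of width `e² / 4` along a supporting line, `e = 4 / m`.
-/

set_option autoImplicit false

open Finset

namespace Pool.Agent.CvxP

open Pool.Agent.EDW (Plane IsLine)

theorem core {n k : ℕ} {r : ℝ} (x y s : Fin n → ℝ) (hx : ∀ i, |x i| ≤ 1) (hk : 1 ≤ k) (hr : 0 < r)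
    (hr1 : r ≤ 1)
    (hl : ∀ a t : ℝ, ((univ : Finset (Fin n)).filter fun i => |y i + a * x i - t| ≤ r).card ≤ k)
    (A : Finset (Fin n)) (hs : ∀ i ∈ A, |s i| ≤ 1)
    (hsup : ∀ i ∈ A, ∀ j, y j + s i * x j ≤ y i + s i * x i) :
    r * (A.card : ℝ) ^ 2 ≤ 16 * (k : ℝ) ^ 2 := by
  have hk0 : (1 : ℝ) ≤ k := by exact_mod_cast hk
  rcases Nat.lt_or_ge (4 * k) A.card with hN | hN
  swap
  · have h1 : (A.card : ℝ) ≤ 4 * k := by exact_mod_cast hN
    have h0 : (0 : ℝ) ≤ A.card := Nat.cast_nonneg _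
    calc r * (A.card : ℝ) ^ 2 ≤ 1 * (4 * k) ^ 2 := by gcongr
      _ = 16 * (k : ℝ) ^ 2 := by ring
  obtain ⟨m, hm1, hmk, hmN⟩ : ∃ m : ℕ, 1 ≤ m ∧ (m + 1) * k < A.card ∧ A.card ≤ 2 * k * m := by
    refine ⟨(A.card - 1) / k - 1, ?_, ?_, ?_⟩
    · have h1 : 4 ≤ (A.card - 1) / k := by
        rw [Nat.le_div_iff_mul_le (by omega)]
        omega
      omega
    · have h1 : 4 ≤ (A.card - 1) / k := by
        rw [Nat.le_div_iff_mul_le (by omega)]
        omega
      have h2 : (A.card - 1) / k * k ≤ A.card - 1 := Nat.div_mul_le_self _ _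
      have h3 : (A.card - 1) / k - 1 + 1 = (A.card - 1) / k := by omega
      rw [h3]
      omega
    · have h1 : 4 ≤ (A.card - 1) / k := by
        rw [Nat.le_div_iff_mul_le (by omega)]
        omega
      have h2 : A.card - 1 < k * ((A.card - 1) / k + 1) := by
        have := Nat.lt_mul_div_succ (A.card - 1) (show 0 < k by omega)
        exact this
      set q := (A.card - 1) / k with hq
      obtain ⟨q', hq'⟩ : ∃ q', q = q' + 4 := ⟨q - 4, by omega⟩
      rw [hq'] at h2 ⊢
      have e : q' + 4 - 1 = q' + 3 := by omega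
      rw [e]
      have h3 : A.card ≤ k * (q' + 4 + 1) := by omega
      have h4 : k * (q' + 4 + 1) ≤ k * (2 * (q' + 3)) := Nat.mul_le_mul_left _ (by omega)
      calc A.card ≤ k * (2 * (q' + 3)) := h3.trans h4
        _ = 2 * k * (q' + 3) := by ring
  have hm0 : (0 : ℝ) < m := by exact_mod_cast hm1
  -- the boxes
  have hg : ∀ i ∈ A, 0 ≤ x i + s i + 2 ∧ x i + s i + 2 ≤ 4 := by
    intro i hi
    have h1 := abs_le.1 (hx i)
    have h2 := abs_le.1 (hs i hi)
    constructor <;> linarith [h1.1, h1.2, h2.1, h2.2]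
  obtain ⟨q, -, hq⟩ := exists_lt_card_fiber_of_mul_lt_card_of_maps_to
    (s := A) (t := range (m + 1)) (f := fun i => ⌊(x i + s i + 2) * m / 4⌋₊) (n := k)
    (fun i hi => by
      rw [mem_range, Nat.lt_succ_iff]
      refine Nat.floor_le_of_le ?_
      have := (hg i hi).2
      calc (x i + s i + 2) * m / 4 ≤ 4 * m / 4 := by gcongr
        _ = m := by ring)
    (by rw [card_range]; exact hmk)
  set B := A.filter fun i => ⌊(x i + s i + 2) * m / 4⌋₊ = q with hB
  have hBne : B.Nonempty := card_pos.1 (by omega)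
  obtain ⟨p, hp⟩ := hBne
  have hpA : p ∈ A := (mem_filter.1 hp).1
  have hclose : ∀ j ∈ B, |(x p + s p) - (x j + s j)| ≤ 4 / m := by
    intro j hj
    have hjA : j ∈ A := (mem_filter.1 hj).1
    have h1 := (mem_filter.1 hp).2
    have h2 := (mem_filter.1 hj).2
    have a1 := Nat.floor_le (show 0 ≤ (x p + s p + 2) * m / 4 from by
      have := (hg p hpA).1; positivity)
    have a2 := Nat.lt_floor_add_one ((x p + s p + 2) * m / 4)
    have b1 := Nat.floor_le (show 0 ≤ (x j + s j + 2) * m / 4 from by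
      have := (hg j hjA).1; positivity)
    have b2 := Nat.lt_floor_add_one ((x j + s j + 2) * m / 4)
    rw [h1] at a1 a2
    rw [h2] at b1 b2
    have e : (x p + s p) - (x j + s j) = ((x p + s p + 2) * m / 4 - (x j + s j + 2) * m / 4) * (4 / m) := by
      field_simp
      ring
    rw [e, abs_mul, abs_of_pos (show (0 : ℝ) < 4 / m by positivity)]
    have h3 : |(x p + s p + 2) * m / 4 - (x j + s j + 2) * m / 4| ≤ 1 := by
      rw [abs_le]
      constructor <;> linarith
    calc _ ≤ 1 * (4 / (m : ℝ)) := by gcongr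
      _ = 4 / m := one_mul _
  -- the strip
  have hstrip : ∀ j ∈ B, 0 ≤ (y p + s p * x p) - (y j + s p * x j) ∧
      (y p + s p * x p) - (y j + s p * x j) ≤ 4 / (m : ℝ) ^ 2 := by
    intro j hj
    have hjA : j ∈ A := (mem_filter.1 hj).1
    have h1 := hsup p hpA j
    have h2 := hsup j hjA p
    refine ⟨by linarith, ?_⟩
    have h3 : (y p + s p * x p) - (y j + s p * x j) ≤ (s p - s j) * (x p - x j) := by linarith
    have h4 := hclose j hj
    have h5 : ((x p + s p) - (x j + s j)) ^ 2 ≤ (4 / (m : ℝ)) ^ 2 := by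
      rw [← sq_abs]
      gcongr
    have h6 : (4 / (m : ℝ)) ^ 2 = 4 * (4 / (m : ℝ) ^ 2) := by ring
    rw [h6] at h5
    nlinarith [sq_nonneg ((s p - s j) - (x p - x j))]
  by_contra hcon
  push Not at hcon
  have hrm : 2 / (m : ℝ) ^ 2 ≤ r := by
    by_contra h
    push Not at h
    have h1 : (A.card : ℝ) ≤ 2 * k * m := by exact_mod_cast hmN
    have h0 : (0 : ℝ) ≤ A.card := Nat.cast_nonneg _
    have h2 : r * (A.card : ℝ) ^ 2 ≤ 2 / (m : ℝ) ^ 2 * (2 * k * m) ^ 2 := by gcongr
    have h3 : 2 / (m : ℝ) ^ 2 * (2 * k * m) ^ 2 = 8 * (k : ℝ) ^ 2 := by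
      field_simp
      ring
    rw [h3] at h2
    nlinarith
  have h1 := hl (s p) (y p + s p * x p - 2 / (m : ℝ) ^ 2)
  have h2 : B ⊆ (univ : Finset (Fin n)).filter
      fun i => |y i + s p * x i - (y p + s p * x p - 2 / (m : ℝ) ^ 2)| ≤ r := by
    intro j hj
    obtain ⟨h3, h4⟩ := hstrip j hj
    rw [mem_filter]
    refine ⟨mem_univ _, le_trans ?_ hrm⟩
    have h5 : 4 / (m : ℝ) ^ 2 = 2 * (2 / (m : ℝ) ^ 2) := by ring
    rw [h5] at h4
    rw [abs_le]
    constructor <;> linarith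
  have h3 := card_le_card h2
  omega

/-- a line with the equation `α x + β y = t`, `α² + β² ≥ 1`, meets the disks whose centres satisfy it up to `r` -/
theorem count_line {n k : ℕ} {r : ℝ} {c : Fin n → Plane} (hr : 0 < r)
    (hl : ∀ l, IsLine l → {i | (Metric.closedBall (c i) r ∩ l).Nonempty}.ncard ≤ k)
    (α β t : ℝ) (h1 : 1 ≤ α ^ 2 + β ^ 2) :
    ((univ : Finset (Fin n)).filter fun i => |α * c i 0 + β * c i 1 - t| ≤ r).card ≤ k := by
  set D := α ^ 2 + β ^ 2 with hD
  have hD0 : 0 < D := by linarith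
  let a : Plane := WithLp.toLp 2 ![t * α / D, t * β / D]
  let v : Plane := WithLp.toLp 2 ![-β, α]
  have hv : v ≠ 0 := by
    intro h
    have h0 := congrArg (fun z : Plane => z 0) h
    have h2 := congrArg (fun z : Plane => z 1) h
    simp [v] at h0 h2
    rw [h0, h2] at hD
    norm_num at hD
    linarith
  have hline := hl {z | ∃ u : ℝ, z = a + u • v} ⟨a, v, hv, rfl⟩
  rw [← Set.ncard_coe_finset]
  refine le_trans (Set.ncard_le_ncard ?_ (Set.toFinite _)) hline
  intro i hi
  have hi' := (mem_filter.1 (mem_coe.1 hi)).2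
  set d := α * c i 0 + β * c i 1 - t with hd
  refine ⟨c i + (-(d / D)) • (WithLp.toLp 2 ![α, β] : Plane), ?_, (-β * c i 0 + α * c i 1) / D, ?_⟩
  · rw [Metric.mem_closedBall, dist_eq_norm, add_sub_cancel_left]
    apply le_of_sq_le_sq _ hr.le
    rw [norm_smul, mul_pow, Real.norm_eq_abs, sq_abs, Pool.Agent.EDW.plane_normsq]
    simp only [Matrix.cons_val_zero, Matrix.cons_val_one]
    rw [← hD]
    have h2 : d ^ 2 ≤ r ^ 2 := by
      rw [← sq_abs d]
      gcongr
    have h3 : (-(d / D)) ^ 2 * D = d ^ 2 / D := by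
      field_simp
    rw [h3, div_le_iff₀ hD0]
    nlinarith [sq_nonneg r]
  · ext j
    fin_cases j
    · simp [a, v]
      field_simp
      rw [hd, hD]
      ring
    · simp [a, v]
      field_simp
      rw [hd, hD]
      ring

theorem abs_le_ball {c : Plane} (h : ‖c‖ ≤ 1) : |c 0| ≤ 1 ∧ |c 1| ≤ 1 := by
  have h1 := Pool.Agent.EDW.plane_normsq c
  have h2 : ‖c‖ ^ 2 ≤ 1 := by
    have := norm_nonneg c
    nlinarith
  constructor
  · rw [← sq_le_one_iff_abs_le_one]
    nlinarith [sq_nonneg (c 1)]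
  · rw [← sq_le_one_iff_abs_le_one]
    nlinarith [sq_nonneg (c 0)]

/-- If `n` closed disks of radius `r` lie in the closed unit disk, every line meets at most `k` of them, and `h` of the centres lie on a
supporting line of the set of centres, then `r h² ≤ 256 k²`. -/
theorem upper (n k : ℕ) (r : ℝ) (c : Fin n → Plane) (hk : 1 ≤ k) (hr : 0 < r)
    (hc : ∀ i, Metric.closedBall (c i) r ⊆ Metric.closedBall 0 1)
    (hl : ∀ l, IsLine l → {i | (Metric.closedBall (c i) r ∩ l).Nonempty}.ncard ≤ k) :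
    r * ({i | ∃ u : Plane, u ≠ 0 ∧ ∀ j, u 0 * c j 0 + u 1 * c j 1 ≤ u 0 * c i 0 + u 1 * c i 1}.ncard : ℝ) ^ 2 ≤
      256 * (k : ℝ) ^ 2 := by
  classical
  set H : Set (Fin n) :=
    {i | ∃ u : Plane, u ≠ 0 ∧ ∀ j, u 0 * c j 0 + u 1 * c j 1 ≤ u 0 * c i 0 + u 1 * c i 1} with hH
  have hcn : ∀ i, ‖c i‖ + r ≤ 1 := fun i => Pool.Agent.EDU.norm_le_of_ball hr (hc i)
  rcases Nat.eq_zero_or_pos H.ncard with h0 | h0
  · rw [h0]
    rw [Nat.cast_zero, zero_pow two_ne_zero, mul_zero]
    positivity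
  have hne : H.Nonempty := by
    rw [← Set.ncard_pos (Set.toFinite _)]
    exact h0
  have hr1 : r ≤ 1 := by
    obtain ⟨i, -⟩ := hne
    have := hcn i
    have := norm_nonneg (c i)
    linarith
  have hX : ∀ i, |c i 0| ≤ 1 := fun i => (abs_le_ball (by have := hcn i; linarith)).1
  have hY : ∀ i, |c i 1| ≤ 1 := fun i => (abs_le_ball (by have := hcn i; linarith)).2
  choose! u hu0 hu using fun (i : Fin n) (hi : i ∈ H) => hi
  let HF : Finset (Fin n) := univ.filter fun i => i ∈ H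
  let A1 := HF.filter fun i => 0 < u i 1 ∧ |u i 0| ≤ u i 1
  let A2 := HF.filter fun i => u i 1 < 0 ∧ |u i 0| ≤ -u i 1
  let A3 := HF.filter fun i => 0 < u i 0 ∧ |u i 1| ≤ u i 0
  let A4 := HF.filter fun i => u i 0 < 0 ∧ |u i 1| ≤ -u i 0
  have hHF : H.ncard = HF.card := by
    rw [← Set.ncard_coe_finset]
    congr 1
    ext i
    simp [HF]
  have hcov : HF ⊆ A1 ∪ (A2 ∪ (A3 ∪ A4)) := by
    intro i hi
    have hiH : i ∈ H := (mem_filter.1 hi).2
    have hne := hu0 i hiH
    have hor : u i 0 ≠ 0 ∨ u i 1 ≠ 0 := by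
      by_contra hcon
      push Not at hcon
      apply hne
      ext j
      fin_cases j
      · simpa using hcon.1
      · simpa using hcon.2
    simp only [mem_union]
    rcases le_total |u i 0| |u i 1| with h | h
    · have h1 : u i 1 ≠ 0 := by
        intro h1
        rw [h1, abs_zero] at h
        have h2 := abs_eq_zero.1 (le_antisymm h (abs_nonneg _))
        rcases hor with h3 | h3
        · exact h3 h2
        · exact h3 h1
      rcases lt_or_gt_of_ne h1 with h2 | h2
      · rw [abs_of_neg h2] at h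
        exact Or.inr (Or.inl (mem_filter.2 ⟨hi, h2, h⟩))
      · rw [abs_of_pos h2] at h
        exact Or.inl (mem_filter.2 ⟨hi, h2, h⟩)
    · have h1 : u i 0 ≠ 0 := by
        intro h1
        rw [h1, abs_zero] at h
        have h2 := abs_eq_zero.1 (le_antisymm h (abs_nonneg _))
        rcases hor with h3 | h3
        · exact h3 h1
        · exact h3 h2
      rcases lt_or_gt_of_ne h1 with h2 | h2
      · rw [abs_of_neg h2] at h
        exact Or.inr (Or.inr (Or.inr (mem_filter.2 ⟨hi, h2, h⟩)))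
      · rw [abs_of_pos h2] at h
        exact Or.inr (Or.inr (Or.inl (mem_filter.2 ⟨hi, h2, h⟩)))
  have hcard : HF.card ≤ A1.card + (A2.card + (A3.card + A4.card)) := by
    refine (card_le_card hcov).trans ((card_union_le _ _).trans ?_)
    refine Nat.add_le_add_left ((card_union_le _ _).trans ?_) _
    exact Nat.add_le_add_left (card_union_le _ _) _
  have b1 : r * (A1.card : ℝ) ^ 2 ≤ 16 * (k : ℝ) ^ 2 := by
    refine core (fun i => c i 0) (fun i => c i 1) (fun i => u i 0 / u i 1) hX hk hr hr1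
      (fun a t => ?_) A1 (fun i hi => ?_) (fun i hi j => ?_)
    · have := count_line hr hl a 1 t (by nlinarith [sq_nonneg a])
      refine le_trans (card_le_card fun i hi => ?_) this
      rw [mem_filter] at hi ⊢
      refine ⟨hi.1, le_of_eq_of_le ?_ hi.2⟩
      congr 1
      ring
    · obtain ⟨-, h1, h2⟩ := mem_filter.1 hi
      rw [abs_div, abs_of_pos h1, div_le_one h1]
      exact h2
    · obtain ⟨hi1, h1, h2⟩ := mem_filter.1 hi
      have h3 := hu i (mem_filter.1 hi1).2 j
      have h5 : u i 1 ≠ 0 := h1.ne'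
      have e : ∀ l, c l 1 + u i 0 / u i 1 * c l 0 = (u i 0 * c l 0 + u i 1 * c l 1) / u i 1 := by
        intro l
        rw [eq_div_iff h5, add_mul, mul_right_comm, div_mul_cancel₀ _ h5]
        ring
      simp only [e]
      exact div_le_div_of_nonneg_right h3 h1.le
  have b2 : r * (A2.card : ℝ) ^ 2 ≤ 16 * (k : ℝ) ^ 2 := by
    refine core (fun i => c i 0) (fun i => -c i 1) (fun i => u i 0 / -u i 1) hX hk hr hr1
      (fun a t => ?_) A2 (fun i hi => ?_) (fun i hi j => ?_)
    · have := count_line hr hl a (-1) t (by nlinarith [sq_nonneg a])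
      refine le_trans (card_le_card fun i hi => ?_) this
      rw [mem_filter] at hi ⊢
      refine ⟨hi.1, le_of_eq_of_le ?_ hi.2⟩
      congr 1
      ring
    · obtain ⟨-, h1, h2⟩ := mem_filter.1 hi
      rw [abs_div, abs_neg, abs_of_neg h1, div_le_one (by linarith)]
      exact h2
    · obtain ⟨hi1, h1, h2⟩ := mem_filter.1 hi
      have h3 := hu i (mem_filter.1 hi1).2 j
      have h4 : 0 < -u i 1 := by linarith
      have e : ∀ l, -c l 1 + u i 0 / -u i 1 * c l 0 = (u i 0 * c l 0 + u i 1 * c l 1) / -u i 1 := by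
        intro l
        rw [eq_div_iff h4.ne', add_mul, mul_right_comm, div_mul_cancel₀ _ h4.ne']
        ring
      simp only [e]
      exact div_le_div_of_nonneg_right h3 h4.le
  have b3 : r * (A3.card : ℝ) ^ 2 ≤ 16 * (k : ℝ) ^ 2 := by
    refine core (fun i => c i 1) (fun i => c i 0) (fun i => u i 1 / u i 0) hY hk hr hr1
      (fun a t => ?_) A3 (fun i hi => ?_) (fun i hi j => ?_)
    · have := count_line hr hl 1 a t (by nlinarith [sq_nonneg a])
      refine le_trans (card_le_card fun i hi => ?_) this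
      rw [mem_filter] at hi ⊢
      refine ⟨hi.1, le_of_eq_of_le ?_ hi.2⟩
      congr 1
      ring
    · obtain ⟨-, h1, h2⟩ := mem_filter.1 hi
      rw [abs_div, abs_of_pos h1, div_le_one h1]
      exact h2
    · obtain ⟨hi1, h1, h2⟩ := mem_filter.1 hi
      have h3 := hu i (mem_filter.1 hi1).2 j
      have h5 : u i 0 ≠ 0 := h1.ne'
      have e : ∀ l, c l 0 + u i 1 / u i 0 * c l 1 = (u i 0 * c l 0 + u i 1 * c l 1) / u i 0 := by
        intro l
        rw [eq_div_iff h5, add_mul, mul_right_comm, div_mul_cancel₀ _ h5]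
        ring
      simp only [e]
      exact div_le_div_of_nonneg_right h3 h1.le
  have b4 : r * (A4.card : ℝ) ^ 2 ≤ 16 * (k : ℝ) ^ 2 := by
    refine core (fun i => c i 1) (fun i => -c i 0) (fun i => u i 1 / -u i 0) hY hk hr hr1
      (fun a t => ?_) A4 (fun i hi => ?_) (fun i hi j => ?_)
    · have := count_line hr hl (-1) a t (by nlinarith [sq_nonneg a])
      refine le_trans (card_le_card fun i hi => ?_) this
      rw [mem_filter] at hi ⊢
      refine ⟨hi.1, le_of_eq_of_le ?_ hi.2⟩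
      congr 1
      ring
    · obtain ⟨-, h1, h2⟩ := mem_filter.1 hi
      rw [abs_div, abs_neg, abs_of_neg h1, div_le_one (by linarith)]
      exact h2
    · obtain ⟨hi1, h1, h2⟩ := mem_filter.1 hi
      have h3 := hu i (mem_filter.1 hi1).2 j
      have h4 : 0 < -u i 0 := by linarith
      have e : ∀ l, -c l 0 + u i 1 / -u i 0 * c l 1 = (u i 0 * c l 0 + u i 1 * c l 1) / -u i 0 := by
        intro l
        rw [eq_div_iff h4.ne', add_mul, mul_right_comm, div_mul_cancel₀ _ h4.ne']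
        ring
      simp only [e]
      exact div_le_div_of_nonneg_right h3 h4.le
  rw [hHF]
  have hsum : (HF.card : ℝ) ≤ A1.card + (A2.card + (A3.card + A4.card)) := by exact_mod_cast hcard
  have h5 : (HF.card : ℝ) ^ 2 ≤ 4 * ((A1.card : ℝ) ^ 2 + (A2.card : ℝ) ^ 2 + (A3.card : ℝ) ^ 2 + (A4.card : ℝ) ^ 2) := by
    have h6 : (0 : ℝ) ≤ HF.card := Nat.cast_nonneg _
    have h7 : (HF.card : ℝ) ^ 2 ≤ ((A1.card : ℝ) + (A2.card + (A3.card + A4.card))) ^ 2 := by gcongr
    refine h7.trans ?_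
    nlinarith [sq_nonneg ((A1.card : ℝ) - A2.card), sq_nonneg ((A1.card : ℝ) - A3.card),
      sq_nonneg ((A1.card : ℝ) - A4.card), sq_nonneg ((A2.card : ℝ) - A3.card),
      sq_nonneg ((A2.card : ℝ) - A4.card), sq_nonneg ((A3.card : ℝ) - A4.card)]
  calc r * (HF.card : ℝ) ^ 2 ≤
      r * (4 * ((A1.card : ℝ) ^ 2 + (A2.card : ℝ) ^ 2 + (A3.card : ℝ) ^ 2 + (A4.card : ℝ) ^ 2)) := by gcongr
    _ = 4 * (r * (A1.card : ℝ) ^ 2 + r * (A2.card : ℝ) ^ 2 + r * (A3.card : ℝ) ^ 2 + r * (A4.card : ℝ) ^ 2) := by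
        ring
    _ ≤ 4 * (16 * (k : ℝ) ^ 2 + 16 * (k : ℝ) ^ 2 + 16 * (k : ℝ) ^ 2 + 16 * (k : ℝ) ^ 2) := by linarith
    _ = 256 * (k : ℝ) ^ 2 := by ring

end Pool.Agent.CvxP
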